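import Pool.Agent.H484.AL.Stm

/-!
# Fibering over the residue vector modulo `gcd (a0, N)`
-/

set_option autoImplicit false

namespace Pool.Agent.H484.AL

open Finset
open scoped Classical

theorem t_FIB : S_FIB := by
  intro e N a0 P hN
  set g := Nat.gcd a0 N with hg
  have hgN : g ∣ N := Nat.gcd_dvd_right a0 N
  have hga : g ∣ a0 := Nat.gcd_dvd_left a0 N
  have hg0 : 0 < g := Nat.gcd_pos_of_pos_right a0 hN
  rw [← Finset.card_sigma]
  refine Finset.card_le_card_of_injOn
    (fun a' : Fin e → Fin N =>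
      (⟨fun i => ⟨(a' i : ℕ) % g, Nat.mod_lt _ hg0⟩,
        fun i => ⟨(a' i : ℕ) / g, by
          refine Nat.div_lt_of_lt_mul ?_
          rw [Nat.mul_div_cancel' hgN]
          exact (a' i).2⟩⟩ : Σ _ : Fin e → Fin g, Fin e → Fin (N / g))) ?_ ?_
  · intro a' ha'
    have h1 := (Finset.mem_filter.1 ha').2
    have hdec : ∀ i, (a' i : ℕ) % g + g * ((a' i : ℕ) / g) = (a' i : ℕ) :=
      fun i => Nat.mod_add_div _ _
    refine Finset.mem_coe.2 (Finset.mem_sigma.2 ⟨?_, ?_⟩)
    · refine Finset.mem_filter.2 ⟨Finset.mem_univ _, ?_⟩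
      have h2 := h1.1
      unfold prim at h2 ⊢
      rw [Nat.coprime_iff_gcd_eq_one] at h2 ⊢
      have hD1 := Nat.gcd_dvd_left
        (Finset.univ.gcd fun i : Fin e => (a' i : ℕ) % g) g
      have hD2 := Nat.gcd_dvd_right
        (Finset.univ.gcd fun i : Fin e => (a' i : ℕ) % g) g
      apply Nat.dvd_one.1
      rw [← h2]
      refine Nat.dvd_gcd (Finset.dvd_gcd fun j _ => ?_) (hD2.trans hgN)
      refine Fin.cases ?_ (fun i => ?_) j
      · rw [Fin.cons_zero]
        exact hD2.trans hga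
      · rw [Fin.cons_succ, ← hdec i]
        exact dvd_add (hD1.trans (Finset.gcd_dvd (Finset.mem_univ i)))
          (hD2.trans (dvd_mul_right _ _))
    · refine Finset.mem_filter.2 ⟨Finset.mem_univ _, ?_⟩
      have h3 : vec e g (a0 / g) (fun i => (a' i : ℕ) % g) (fun i => (a' i : ℕ) / g) =
          Fin.cons a0 (fun i => (a' i : ℕ)) := by
        unfold vec
        rw [Nat.mul_div_cancel' hga]
        congr 1
        funext i
        exact hdec i
      change P (vec e g (a0 / g) (fun i => (a' i : ℕ) % g) (fun i => (a' i : ℕ) / g))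
      rw [h3]
      exact h1.2
  · intro a' _ a'' _ h
    have h1 := congrArg Sigma.fst h
    have h2 := congrArg (fun z : (Σ _ : Fin e → Fin g, Fin e → Fin (N / g)) => z.2) h
    funext i
    have h3 := congrArg Fin.val (congrFun h1 i)
    have h4 := congrArg Fin.val (congrFun h2 i)
    change (a' i : ℕ) % g = (a'' i : ℕ) % g at h3
    change (a' i : ℕ) / g = (a'' i : ℕ) / g at h4
    apply Fin.ext
    rw [← Nat.mod_add_div (a' i : ℕ) g, ← Nat.mod_add_div (a'' i : ℕ) g, h3, h4]

end Pool.Agent.H484.AL
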